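import Pool.Agent.Q295.PN.StmD

/-!
# Project PN: job A3, numerics
-/

set_option autoImplicit false

namespace Pool.Agent.Q275.PN

open Pool.Agent.Q295.PN

/-- bounds for `1 - exp (-x)` -/
theorem one_sub_exp {x : ℝ} (h0 : 0 ≤ x) (h1 : x ≤ 1) :
    x / 2 ≤ 1 - Real.exp (-x) ∧ 1 - Real.exp (-x) ≤ x := by
  have h2 := Real.add_one_le_exp (-x)
  refine ⟨?_, by linarith⟩
  have h3 := Real.add_one_le_exp x
  have h4 : Real.exp (-x) ≤ 1 / (1 + x) := by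
    rw [Real.exp_neg, ← one_div]
    exact one_div_le_one_div_of_le (by linarith) (by linarith)
  have h5 : 1 / (1 + x) ≤ 1 - x / 2 := by
    rw [div_le_iff₀ (by linarith)]
    nlinarith
  linarith

theorem a3 : S_A3 := by
  rintro ⟨c, ν₀, hc, hν₀, H⟩
  refine ⟨c / 2, by positivity, ⌈2 * ν₀⌉₊ + 1, by omega, ?_⟩
  intro n hn N₀
  have hn1 : 1 ≤ n := by omega
  have hnr : 2 * ν₀ ≤ n := by
    refine (Nat.le_ceil _).trans ?_
    have : ⌈2 * ν₀⌉₊ ≤ n := by omega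
    exact_mod_cast this
  have hn1r : (1 : ℝ) ≤ n := by exact_mod_cast hn1
  have hn0r : (0 : ℝ) < n := by linarith
  obtain ⟨b, hb⟩ : ∃ b : ℕ, b = ⌈(n : ℝ) ^ (42 / 100 : ℝ)⌉₊ := ⟨_, rfl⟩
  have hpw1 : (1 : ℝ) ≤ (n : ℝ) ^ (42 / 100 : ℝ) := Real.one_le_rpow hn1r (by norm_num)
  have hb1 : 1 ≤ b := by
    rw [hb]
    exact Nat.ceil_pos.2 (by linarith)
  have hbl : (n : ℝ) ^ (42 / 100 : ℝ) ≤ b := by
    rw [hb]
    exact Nat.le_ceil _
  have hbu : (b : ℝ) ≤ 2 * (n : ℝ) ^ (42 / 100 : ℝ) := by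
    have := Nat.ceil_lt_add_one (show 0 ≤ (n : ℝ) ^ (42 / 100 : ℝ) by linarith)
    rw [← hb] at this
    linarith
  obtain ⟨k, hk⟩ : ∃ k : ℕ, k = n ^ 2 + N₀ + 16 := ⟨_, rfl⟩
  obtain ⟨N, hN⟩ : ∃ N : ℕ, N = k * b * (b + 1) := ⟨_, rfl⟩
  obtain ⟨M, hM⟩ : ∃ M : ℕ, M = k * (b + 1) ^ 2 := ⟨_, rfl⟩
  obtain ⟨K, hK⟩ : ∃ K : ℕ, K = k * b ^ 2 := ⟨_, rfl⟩
  have hkK : k ≤ K := by
    rw [hK]
    exact Nat.le_mul_of_pos_right _ (by positivity)
  have hKN : K ≤ N := by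
    rw [hK, hN]
    nlinarith [Nat.zero_le (k * b)]
  have hNM : N ≤ M := by
    rw [hM, hN]
    nlinarith [Nat.zero_le (k * b), Nat.zero_le k]
  have hM2 : M ≤ 2 * N := by
    rw [hM, hN]
    have h1 : b + 1 ≤ 2 * b := by omega
    calc k * (b + 1) ^ 2 = k * (b + 1) * (b + 1) := by ring
      _ ≤ k * (b + 1) * (2 * b) := Nat.mul_le_mul_left _ h1
      _ = _ := by ring
  have hMN : M = N + k * (b + 1) := by
    rw [hM, hN]
    ring
  have hNK : N = K + k * b := by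
    rw [hK, hN]
    ring
  have hNN : N * N = M * K := by
    rw [hM, hN, hK]
    ring
  have hdiff : N - K ≤ M - N := by
    have h1 : N - K = k * b := by omega
    have h2 : M - N = k * (b + 1) := by omega
    rw [h1, h2]
    exact Nat.mul_le_mul_left _ (by omega)
  have hNk : k ≤ N := hkK.trans hKN
  have hpp : pp n M K = pp n N N := by
    unfold pp mu
    have h1 : (M : ℝ) * K = N * N := by
      exact_mod_cast hNN.symm
    rw [h1]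
  obtain ⟨p, hp⟩ : ∃ p : ℝ, p = pp n N N := ⟨_, rfl⟩
  obtain ⟨x, hx⟩ : ∃ x : ℝ, x = (n : ℝ) ^ 2 / (N * N) := ⟨_, rfl⟩
  have hpx : p = 1 - Real.exp (-x) := by
    rw [hp, hx]
    rfl
  have hNr : (n : ℝ) ^ 2 ≤ N := by
    have h1 : n ^ 2 ≤ N := by omega
    exact_mod_cast h1
  have hN16 : (16 : ℝ) ≤ N := by
    have h1 : 16 ≤ N := by omega
    exact_mod_cast h1
  have hN0 : (0 : ℝ) < N := by linarith
  have hx0 : 0 < x := by
    rw [hx]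
    positivity
  have hx16 : x ≤ 1 / 16 := by
    rw [hx, div_le_iff₀ (by positivity)]
    nlinarith
  obtain ⟨hpl, hpu⟩ := one_sub_exp hx0.le (by linarith : x ≤ 1)
  rw [← hpx] at hpl hpu
  have hp0 : 0 < p := by linarith
  have hxN : x * ((N : ℝ) * N) = (n : ℝ) ^ 2 := by
    rw [hx]
    field_simp
  obtain ⟨ν, hν⟩ : ∃ ν : ℝ, ν = (N : ℝ) * Real.sqrt p := ⟨_, rfl⟩
  have hν0 : 0 < ν := by
    rw [hν]
    exact mul_pos hN0 (Real.sqrt_pos.2 hp0)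
  have hν2 : ν ^ 2 = (N : ℝ) * N * p := by
    rw [hν, mul_pow, Real.sq_sqrt hp0.le]
    ring
  have hNN0 : (0 : ℝ) < (N : ℝ) * N := by positivity
  have hνu : ν ≤ n := by
    have h1 : ν ^ 2 ≤ (n : ℝ) ^ 2 := by
      rw [hν2, ← hxN]
      nlinarith
    exact le_of_sq_le_sq h1 hn0r.le
  have hνl : (n : ℝ) / 2 ≤ ν := by
    have h1 : ((n : ℝ) / 2) ^ 2 ≤ ν ^ 2 := by
      rw [hν2]
      have h2 : (n : ℝ) ^ 2 / 2 ≤ (N : ℝ) * N * p := by
        rw [← hxN]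
        nlinarith
      nlinarith
    exact le_of_sq_le_sq h1 hν0.le
  have hb0 : (0 : ℝ) < b := by exact_mod_cast hb1
  have hMNs : ((M : ℝ) - N) * Real.sqrt p = ν / b := by
    rw [hν, eq_div_iff hb0.ne']
    have h1 : (M : ℝ) = N + k * (b + 1) := by exact_mod_cast hMN
    have h2 : (N : ℝ) = k * b * (b + 1) := by exact_mod_cast hN
    rw [h1]
    calc ((N : ℝ) + k * (b + 1) - N) * Real.sqrt p * b = (k * b * (b + 1)) * Real.sqrt p := by ring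
      _ = _ := by rw [← h2]
  have hpow : ν ^ (58 / 100 : ℝ) * ν ^ (42 / 100 : ℝ) = ν := by
    rw [← Real.rpow_add hν0]
    norm_num
  have hA : 0 < ν ^ (58 / 100 : ℝ) := Real.rpow_pos_of_pos hν0 _
  have hB : 0 < ν ^ (42 / 100 : ℝ) := Real.rpow_pos_of_pos hν0 _
  have hBn : ν ^ (42 / 100 : ℝ) ≤ (n : ℝ) ^ (42 / 100 : ℝ) :=
    Real.rpow_le_rpow hν0.le hνu (by norm_num)
  have hnB : (n : ℝ) ^ (42 / 100 : ℝ) ≤ 2 * ν ^ (42 / 100 : ℝ) := by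
    calc (n : ℝ) ^ (42 / 100 : ℝ) ≤ (2 * ν) ^ (42 / 100 : ℝ) :=
          Real.rpow_le_rpow hn0r.le (by linarith) (by norm_num)
      _ = 2 ^ (42 / 100 : ℝ) * ν ^ (42 / 100 : ℝ) := Real.mul_rpow (by norm_num) hν0.le
      _ ≤ 2 ^ (1 : ℝ) * ν ^ (42 / 100 : ℝ) := by
          refine mul_le_mul_of_nonneg_right ?_ hB.le
          exact Real.rpow_le_rpow_of_exponent_le (by norm_num) (by norm_num)
      _ = _ := by rw [Real.rpow_one]
  have hnA : (n : ℝ) ^ (58 / 100 : ℝ) ≤ 2 * ν ^ (58 / 100 : ℝ) := by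
    calc (n : ℝ) ^ (58 / 100 : ℝ) ≤ (2 * ν) ^ (58 / 100 : ℝ) :=
          Real.rpow_le_rpow hn0r.le (by linarith) (by norm_num)
      _ = 2 ^ (58 / 100 : ℝ) * ν ^ (58 / 100 : ℝ) := Real.mul_rpow (by norm_num) hν0.le
      _ ≤ 2 ^ (1 : ℝ) * ν ^ (58 / 100 : ℝ) := by
          refine mul_le_mul_of_nonneg_right ?_ hA.le
          exact Real.rpow_le_rpow_of_exponent_le (by norm_num) (by norm_num)
      _ = _ := by rw [Real.rpow_one]
  have hmain := H p N M K hp0 (by linarith) (by rw [← hν]; linarith) ?_ hKN hNM hM2 hdiff ?_ ?_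
  · refine ⟨N, M, K, by omega, by omega, by omega, by omega, hpp, ?_⟩
    rw [← hp]
    refine le_trans ?_ hmain
    rw [← hν]
    nlinarith
  · rw [← hν]
    have h1 : ν ^ 4 ≤ (n : ℝ) ^ 4 := pow_le_pow_left₀ hν0.le hνu 4
    have h2 : (n : ℝ) ^ 4 = ((n : ℝ) ^ 2) ^ 2 := by ring
    have h3 : ((n : ℝ) ^ 2) ^ 2 ≤ (N : ℝ) ^ 2 := pow_le_pow_left₀ (by positivity) hNr 2
    linarith
  · rw [hMNs, ← hν, le_div_iff₀ hb0]
    calc ν ^ (58 / 100 : ℝ) / 4 * b ≤ ν ^ (58 / 100 : ℝ) / 4 * (4 * ν ^ (42 / 100 : ℝ)) := by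
          refine mul_le_mul_of_nonneg_left ?_ (by positivity)
          linarith
      _ = ν ^ (58 / 100 : ℝ) * ν ^ (42 / 100 : ℝ) := by ring
      _ = ν := hpow
  · rw [hMNs, ← hν, div_le_iff₀ hb0]
    calc ν = ν ^ (58 / 100 : ℝ) * ν ^ (42 / 100 : ℝ) := hpow.symm
      _ ≤ ν ^ (58 / 100 : ℝ) * b := by
          refine mul_le_mul_of_nonneg_left ?_ hA.le
          linarith
      _ ≤ 2 * ν ^ (58 / 100 : ℝ) * b := by
          have : 0 < ν ^ (58 / 100 : ℝ) * b := mul_pos hA hb0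
          linarith

end Pool.Agent.Q275.PN
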