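import Pool.Agent.Q295.PN.StmD

/-!
# Project PN: job BC, combination of parts B and C
-/

set_option autoImplicit false

namespace Pool.Agent.Q275.PN

open Finset Pool.Agent.Q295.PN

theorem ratio_pow {B : ℝ} (hB : 1 ≤ B) {a b : ℕ} (h : b ≤ a + 1) :
    (B⁻¹) ^ a ≤ B * (B⁻¹) ^ b := by
  have hB0 : 0 < B := by linarith
  have h1 : (B⁻¹) ^ (a + 1) ≤ (B⁻¹) ^ b :=
    pow_le_pow_of_le_one (by positivity) (inv_le_one_of_one_le₀ hB) h
  calc (B⁻¹) ^ a = B * (B⁻¹) ^ (a + 1) := by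
        rw [pow_succ]
        field_simp
    _ ≤ B * (B⁻¹) ^ b := mul_le_mul_of_nonneg_left h1 hB0.le

theorem bc : S_BC := by
  intro hMC hDE hCM hBL ι _ _ _ p α T v vT B e R s₀ ρ M J k hp0 hp1 hα0 hα1 hM hpM hv hv32 hvT
    h1 h2 h3 h4 hB he hR hs0 hs1 hρ0 hρ1
  have hB1 : 1 ≤ B := by
    have hM' : (1 : ℝ) ≤ M := by exact_mod_cast hM
    have h5 : 64 * ((M : ℝ) + vT + 1) ≤ B * α := by
      rwa [div_le_iff₀ hα0] at hB
    have hB0 : 0 < B := by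
      by_contra hcon
      push Not at hcon
      have := mul_nonpos_of_nonpos_of_nonneg hcon hα0.le
      linarith
    nlinarith
  have hmain := hCM ι p B R s₀ ρ k (fun κ : ι → Bool => (Lc κ : ℝ))
    (fun x κ => (B⁻¹) ^ (De x κ)) hp0 hp1 hB1 hR hs0 hs1 hρ0 hρ1 ?_ ?_
  · have hbl := hBL ι p α T v vT B e M J hp0 hp1 hα0 hα1 hM hpM hv hv32 hvT h1 h2 h3 h4 hB he
    refine ⟨hmain.1, hmain.2.trans ?_⟩
    have h5 : 0 ≤ (s₀⁻¹) ^ k * Real.exp (8 * B * R * s₀) := by positivity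
    have h6 := mul_le_mul_of_nonneg_left (add_le_add_left hbl
      (p * (Fintype.card ι : ℝ) * Real.exp (-R))) h5
    linarith
  · intro x κ
    have h5 := (hDE hMC ι x κ).2.2.1
    have hBi : (B⁻¹ : ℝ) ≤ 1 := inv_le_one_of_one_le₀ hB1
    have hBp : (0 : ℝ) ≤ B⁻¹ := by positivity
    rw [h5]
    refine ⟨?_, ?_, pow_le_one₀ hBp hBi⟩
    · split_ifs
      · exact zero_le_one
      · exact le_rfl
    · split_ifs with h6
      · simp [h6]
      · positivity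
  · intro x y κ
    have h5 := (hDE hMC ι x κ).2.2.2 y
    exact ⟨ratio_pow hB1 h5.2, ratio_pow hB1 h5.1⟩

end Pool.Agent.Q275.PN
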