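import Pool.Agent.Q295.PN.StmA

/-!
# Project PN: job BD, the deterministic inequality
-/

set_option autoImplicit false

namespace Pool.Agent.Q275.PN

open Finset Pool.Agent.Q295.PN

section

variable {ι : Type} [Fintype ι] [DecidableEq ι] [PartialOrder ι]

theorem psi_nonneg (p c : ℝ) (g : ι → (ι → Bool) → ℝ) (hg : ∀ y κ, 0 ≤ g y κ) :
    ∀ (n : ℕ) (x : ι) (κ : ι → Bool), 0 ≤ psi p c g n x κ := by
  intro n
  induction n with
  | zero => intro x κ; exact hg x κ
  | succ n ih =>
    intro x κ
    rw [psi]
    refine Finset.sum_nonneg fun z _ => ?_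
    split_ifs
    · exact ih _ _
    · exact le_rfl

omit [Fintype ι] [DecidableEq ι] in
theorem path_lt (z : ℕ → ι) (n : ℕ) (h : ∀ i < n, z i < z (i + 1)) :
    ∀ j, j ≤ n → ∀ i, i < j → z i < z j := by
  intro j
  induction j with
  | zero => intro _ i hi; omega
  | succ j ih =>
    intro hj i hi
    rcases Nat.lt_succ_iff_lt_or_eq.1 hi with h1 | h1
    · exact (ih (by omega) i h1).trans (h j (by omega))
    · rw [h1]; exact h j (by omega)

theorem psi_path (p c : ℝ) (g : ι → (ι → Bool) → ℝ) (hg : ∀ y κ, 0 ≤ g y κ) :
    ∀ (n : ℕ) (z : ℕ → ι) (κ : ι → Bool),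
      (∀ i < n, z i < z (i + 1) ∧ κ (z (i + 1)) = true ∧ p * (bt (z i) (z (i + 1)) : ℝ) < c) →
      g (z n) (fun w => if w ∈ (range n).image (fun i => z (i + 1)) then false else κ w) ≤
        psi p c g n (z 0) κ := by
  intro n
  induction n with
  | zero =>
    intro z κ _
    simp [psi]
  | succ n ih =>
    intro z κ h
    classical
    have hlt := path_lt z (n + 1) (fun i hi => (h i hi).1)
    have h0 := h 0 (by omega)
    have h1 : psi p c g n (z 1) (Function.update κ (z 1) false) ≤ psi p c g (n + 1) (z 0) κ := by
      rw [psi]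
      refine le_trans ?_ (Finset.single_le_sum (f := fun y => if z 0 < y ∧
        p * (bt (z 0) y : ℝ) < c ∧ κ y = true then
        psi p c g n y (Function.update κ y false) else 0) ?_ (Finset.mem_univ (z 1)))
      · rw [if_pos ⟨h0.1, h0.2.2, h0.2.1⟩]
      · intro y _
        show (0 : ℝ) ≤ if _ then _ else _
        split_ifs
        · exact psi_nonneg p c g hg _ _ _
        · exact le_rfl
    refine le_trans ?_ h1
    have h2 := ih (fun i => z (i + 1)) (Function.update κ (z 1) false) (by
      intro i hi
      refine ⟨(h (i + 1) (by omega)).1, ?_, (h (i + 1) (by omega)).2.2⟩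
      show Function.update κ (z 1) false (z (i + 1 + 1)) = true
      rw [Function.update_of_ne]
      · exact (h (i + 1) (by omega)).2.1
      · exact (hlt (i + 1 + 1) (by omega) 1 (by omega)).ne')
    have h3 : (fun w => if w ∈ (range (n + 1)).image (fun i => z (i + 1)) then false else κ w) =
        (fun w => if w ∈ (range n).image (fun i => z (i + 1 + 1)) then false else
          Function.update κ (z 1) false w) := by
      funext w
      by_cases hw : w = z 1
      · subst hw
        rw [if_pos, Function.update_self]
        · split_ifs <;> rfl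
        · exact Finset.mem_image.2 ⟨0, Finset.mem_range.2 (by omega), rfl⟩
      · rw [Function.update_of_ne hw]
        by_cases hm : w ∈ (range n).image (fun i => z (i + 1 + 1))
        · rw [if_pos hm, if_pos]
          obtain ⟨i, hi, rfl⟩ := Finset.mem_image.1 hm
          exact Finset.mem_image.2 ⟨i + 1, Finset.mem_range.2
            (by have := Finset.mem_range.1 hi; omega), rfl⟩
        · rw [if_neg hm, if_neg]
          intro hm2
          obtain ⟨i, hi, hi2⟩ := Finset.mem_image.1 hm2
          have hi := Finset.mem_range.1 hi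
          rcases i with _ | i
          · exact hw hi2.symm
          · exact hm (Finset.mem_image.2 ⟨i, Finset.mem_range.2 (by omega), hi2⟩)
    rw [h3]
    exact h2

end

theorem bd : S_BD := by
  intro hMC hDE hCH hNO ι _ _ _ p α T M j x κ hp hα hM hx hDe hFw
  classical
  obtain ⟨mc1, mc2, -, -, -, -⟩ := hMC ι
  -- abbreviations for the five terms
  have hg1 : ∀ (y : ι) (κ' : ι → Bool), 0 ≤ g1 y κ' := by
    intro y κ'
    unfold g1
    split_ifs <;> norm_num
  have hgT : ∀ (y : ι) (κ' : ι → Bool), 0 ≤ gT p T y κ' := by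
    intro y κ'
    unfold gT
    refine Finset.sum_nonneg fun w _ => ?_
    split_ifs <;> norm_num
  have hone : ∀ (y : ι) (κ' : ι → Bool), (0 : ℝ) ≤ (fun (_ : ι) (_ : ι → Bool) => (1 : ℝ)) y κ' :=
    fun _ _ => zero_le_one
  set A1 : ℝ := if Gap p T x κ then 1 else 0 with hA1
  set A2 : ℝ := ∑ w, (if κ w = false ∧ De x (Function.update κ w true) = j ∧
      Ess M x w (Function.update κ w true) then (1 : ℝ) else 0) with hA2
  set A3 : ℝ := ∑ i ∈ range M, psi p (2 * α) (gT p T) i x κ with hA3
  set A4 : ℝ := ∑ m ∈ Icc 1 M, psi p (2 * α) g1 m x κ with hA4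
  set A5 : ℝ := psi p (2 * α) (fun _ _ => 1) M x κ with hA5
  have pA1 : 0 ≤ A1 := by rw [hA1]; split_ifs <;> norm_num
  have pA2 : 0 ≤ A2 := by
    rw [hA2]
    refine Finset.sum_nonneg fun w _ => ?_
    split_ifs <;> norm_num
  have pA3 : 0 ≤ A3 := Finset.sum_nonneg fun i _ => psi_nonneg _ _ _ hgT _ _ _
  have pA4 : 0 ≤ A4 := Finset.sum_nonneg fun i _ => psi_nonneg _ _ _ hg1 _ _ _
  have pA5 : 0 ≤ A5 := psi_nonneg _ _ _ hone _ _ _
  have hpα : 0 < p / α := div_pos hp hα
  have q2 : 0 ≤ p / α * A2 := mul_nonneg hpα.le pA2
  have q3 : 0 ≤ p / α * A3 := mul_nonneg hpα.le pA3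
  by_cases hG : Gap p T x κ
  · have : A1 = 1 := by rw [hA1, if_pos hG]
    linarith
  obtain ⟨z, hz0, hz1, hz2, hz3⟩ := hCH hMC ι x κ M hFw
  have hlt := path_lt z M (fun i hi => (hz1 i hi).1)
  by_cases hshort : ∀ i < M, p * (bt (z i) (z (i + 1)) : ℝ) < 2 * α
  · have h1 := psi_path p (2 * α) (fun _ _ => (1 : ℝ)) hone M z κ
      (fun i hi => ⟨(hz1 i hi).1, (hz1 i hi).2, hshort i hi⟩)
    rw [hz0] at h1
    have h2 : (1 : ℝ) ≤ A5 := h1
    linarith
  -- least bad step
  let opt : ι → Prop := fun y => ∃ C : Finset ι, C ⊆ op κ ∧ IsChain (· ≤ ·) (C : Set ι) ∧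
    C.card = Lc κ ∧ y ∈ C
  have hex : ∃ i, i < M ∧ (¬ (p * (bt (z i) (z (i + 1)) : ℝ) < 2 * α) ∨ opt (z (i + 1))) := by
    push Not at hshort
    obtain ⟨i, hi, hi2⟩ := hshort
    exact ⟨i, hi, Or.inl (not_lt.2 hi2)⟩
  obtain ⟨hiM, hibad⟩ := Nat.find_spec hex
  have himin := fun m (hm : m < Nat.find hex) => Nat.find_min hex hm
  set i := Nat.find hex with hi
  have hprev : ∀ l < i, p * (bt (z l) (z (l + 1)) : ℝ) < 2 * α ∧ ¬ opt (z (l + 1)) := by
    intro l hl
    have h1 := himin l hl
    push Not at h1
    have h2 := h1 (by omega)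
    exact ⟨h2.1, h2.2⟩
  let Z : Finset ι := (range i).image (fun l => z (l + 1))
  have hZ : ∀ y ∈ Z, ¬ opt y := by
    intro y hy
    obtain ⟨l, hl, rfl⟩ := Finset.mem_image.1 hy
    exact (hprev l (Finset.mem_range.1 hl)).2
  obtain ⟨hNOa, hNOb⟩ := hNO hMC ι κ Z hZ
  by_cases hs : p * (bt (z i) (z (i + 1)) : ℝ) < 2 * α
  · -- case 1
    have hopt : opt (z (i + 1)) := by
      rcases hibad with h | h
      · exact absurd hs h
      · exact h
    have h1 := psi_path p (2 * α) g1 hg1 (i + 1) z κ (by
      intro l hl
      refine ⟨(hz1 l (by omega)).1, (hz1 l (by omega)).2, ?_⟩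
      rcases Nat.lt_succ_iff_lt_or_eq.1 hl with h | h
      · exact (hprev l h).1
      · rw [h]; exact hs)
    rw [hz0] at h1
    have h2 : (fun w => if w ∈ (range (i + 1)).image (fun l => z (l + 1)) then false else κ w) =
        Function.update (fun w => if w ∈ Z then false else κ w) (z (i + 1)) false := by
      funext w
      by_cases hw : w = z (i + 1)
      · subst hw
        rw [Function.update_self, if_pos]
        exact Finset.mem_image.2 ⟨i, Finset.mem_range.2 (by omega), rfl⟩
      · rw [Function.update_of_ne hw]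
        by_cases hm : w ∈ Z
        · rw [if_pos hm, if_pos]
          obtain ⟨l, hl, hl2⟩ := Finset.mem_image.1 hm
          exact Finset.mem_image.2 ⟨l, Finset.mem_range.2
            (by have := Finset.mem_range.1 hl; omega), hl2⟩
        · rw [if_neg hm, if_neg]
          intro hm2
          obtain ⟨l, hl, hl2⟩ := Finset.mem_image.1 hm2
          have hl := Finset.mem_range.1 hl
          rcases Nat.lt_succ_iff_lt_or_eq.1 hl with h | h
          · exact hm (Finset.mem_image.2 ⟨l, Finset.mem_range.2 h, hl2⟩)
          · rw [h] at hl2; exact hw hl2.symm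
    rw [h2] at h1
    have h3 : De (z (i + 1)) (Function.update (fun w => if w ∈ Z then false else κ w)
        (z (i + 1)) false) ≤ 1 := by
      rw [((hDE hMC ι (z (i + 1)) (fun w => if w ∈ Z then false else κ w)).2.1 false).1]
      exact hNOb _ hopt
    have h4 : g1 (z (i + 1)) (Function.update (fun w => if w ∈ Z then false else κ w)
        (z (i + 1)) false) = 1 := by
      unfold g1
      rw [if_pos h3]
    rw [h4] at h1
    have h5 : psi p (2 * α) g1 (i + 1) x κ ≤ A4 := by
      rw [hA4]
      exact Finset.single_le_sum (f := fun m => psi p (2 * α) g1 m x κ)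
        (fun m _ => psi_nonneg _ _ _ hg1 _ _ _) (Finset.mem_Icc.2 ⟨by omega, by omega⟩)
    linarith
  · -- case 2
    have hs' : 2 * α ≤ p * (bt (z i) (z (i + 1)) : ℝ) := not_lt.1 hs
    let I : Finset ι := Finset.univ.filter (fun w => z i < w ∧ w < z (i + 1))
    have hIc : I.card = bt (z i) (z (i + 1)) := by
      unfold bt
      rfl
    have hxz : x ≤ z i := by
      rcases Nat.eq_zero_or_pos i with h | h
      · rw [h, hz0]
      · rw [← hz0]; exact (hlt i (by omega) 0 h).le
    let S1 : Finset ι := Finset.univ.filter (fun w => κ w = false ∧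
      De x (Function.update κ w true) = j ∧ Ess M x w (Function.update κ w true))
    let S2 : Finset ι := Finset.univ.filter (fun w => z i < w ∧ p * (bt (z i) w : ℝ) < T ∧
      De w (fun y => if y ∈ Z then false else κ y) = 0)
    have hopen : z i = x ∨ κ (z i) = true := by
      rcases Nat.eq_zero_or_pos i with h | h
      · left; rw [h, hz0]
      · right
        obtain ⟨l, hl⟩ : ∃ l, i = l + 1 := ⟨i - 1, by omega⟩
        rw [hl]
        exact (hz1 l (by omega)).2
    have hTb : p * (bt (z i) (z (i + 1)) : ℝ) < T := by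
      by_contra hcon
      exact hG ⟨z i, z (i + 1), hopen, (hz1 i hiM).2, (hz1 i hiM).1, not_lt.1 hcon,
        fun w h1 h2 => (hz3 i hiM w h1 h2).1⟩
    have hsub : I ⊆ S1 ∪ S2 := by
      intro w hw
      simp only [I, Finset.mem_filter, Finset.mem_univ, true_and] at hw
      obtain ⟨hw1, hw2⟩ := hw
      obtain ⟨e1, e2, e3, e4⟩ := hz3 i hiM w hw1 hw2
      have hxw : x < w := lt_of_le_of_lt hxz hw1
      have hop : op (Function.update κ w true) = insert w (op κ) := by
        ext y
        simp only [op, Finset.mem_filter, Finset.mem_univ, true_and, Finset.mem_insert]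
        by_cases hy : y = w
        · subst hy; simp
        · rw [Function.update_of_ne hy]; simp [hy]
      have hup : Lc (Function.update κ w true) ≤ Lc κ + 1 := by
        unfold Lc
        rw [hop]
        exact mc2 _ _
      have hlo : Lc κ ≤ Lc (Function.update κ w true) := by
        unfold Lc
        rw [hop]
        exact mc1 _ _ (Finset.subset_insert _ _)
      rcases Nat.lt_or_ge (Lc κ) (Lc (Function.update κ w true)) with hcase | hcase
      · -- class 2
        have h1 : Lc (Function.update κ w true) = Lc κ + 1 := by omega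
        have h2 := hNOa w e1 h1
        refine Finset.mem_union_right _ ?_
        simp only [S2, Finset.mem_filter, Finset.mem_univ, true_and]
        refine ⟨hw1, ?_, h2⟩
        have h3 : bt (z i) w ≤ bt (z i) (z (i + 1)) := by
          unfold bt
          refine Finset.card_le_card fun y hy => ?_
          simp only [Finset.mem_filter, Finset.mem_univ, true_and] at hy ⊢
          exact ⟨hy.1, hy.2.trans hw2⟩
        have h4 : (bt (z i) w : ℝ) ≤ bt (z i) (z (i + 1)) := by exact_mod_cast h3
        have h5 := mul_le_mul_of_nonneg_left h4 hp.le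
        linarith
      · have h1 : Lc (Function.update κ w true) = Lc κ := by omega
        refine Finset.mem_union_left _ ?_
        simp only [S1, Finset.mem_filter, Finset.mem_univ, true_and]
        refine ⟨e1, ?_, e4⟩
        have her1 : (op κ).erase x = op κ := by
          refine Finset.erase_eq_of_notMem ?_
          simp [op, hx]
        have her2 : (op (Function.update κ w true)).erase x = op (Function.update κ w true) := by
          refine Finset.erase_eq_of_notMem ?_
          simp only [op, Finset.mem_filter, Finset.mem_univ, true_and]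
          rw [Function.update_of_ne hxw.ne, hx]
          simp
        have hDe' : Lc κ - (Fw x κ + Bw x κ) = j + 1 := by
          have := hDe
          unfold De at this
          rw [her1] at this
          exact this
        unfold De
        rw [her2, e2, e3]
        have : mc (op (Function.update κ w true)) = Lc κ := h1
        rw [this]
        omega
    have hcard : (bt (z i) (z (i + 1)) : ℝ) ≤ S1.card + S2.card := by
      rw [← hIc]
      have := (Finset.card_le_card hsub).trans (Finset.card_union_le S1 S2)
      exact_mod_cast this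
    have hA2c : A2 = S1.card := by
      rw [hA2, Finset.sum_boole]
    have hgTc : gT p T (z i) (fun y => if y ∈ Z then false else κ y) = S2.card := by
      unfold gT
      rw [Finset.sum_boole]
    have hsum : 2 * α ≤ p * S1.card + p * S2.card := by
      have := mul_le_mul_of_nonneg_left hcard hp.le
      linarith
    rcases le_total α (p * (S1.card : ℝ)) with hc | hc
    · have h1 : 1 ≤ p / α * A2 := by
        rw [hA2c, div_mul_eq_mul_div, le_div_iff₀ hα]
        linarith
      linarith
    · have hc2 : α ≤ p * (S2.card : ℝ) := by linarith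
      have h1 := psi_path p (2 * α) (gT p T) hgT i z κ (by
        intro l hl
        exact ⟨(hz1 l (by omega)).1, (hz1 l (by omega)).2, (hprev l hl).1⟩)
      rw [hz0] at h1
      have h2 : gT p T (z i) (fun y => if y ∈ Z then false else κ y) ≤ A3 := by
        refine h1.trans ?_
        rw [hA3]
        exact Finset.single_le_sum (f := fun m => psi p (2 * α) (gT p T) m x κ)
          (fun m _ => psi_nonneg _ _ _ hgT _ _ _) (Finset.mem_range.2 hiM)
      rw [hgTc] at h2
      have h3 : 1 ≤ p / α * A3 := by
        rw [div_mul_eq_mul_div, le_div_iff₀ hα]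
        have := mul_le_mul_of_nonneg_left h2 hp.le
        linarith
      linarith

end Pool.Agent.Q275.PN
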