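import Pool.Agent.Q295.PN.StmD

/-!
# Project PN: job D1, reduction to measurable variables
-/

set_option autoImplicit false

namespace Pool.Agent.Q275.PN

open MeasureTheory ProbabilityTheory Pool.Agent.Q295.PN

theorem unif_univ {n : ℕ} (hn : 1 ≤ n) : unif n Set.univ = 1 := by
  have hn0 : (0 : ℝ) < n := by exact_mod_cast hn
  unfold unif
  rw [Measure.smul_apply, Measure.restrict_apply_univ, smul_eq_mul]
  have h1 : volume (Set.Icc (0 : ℝ × ℝ) ((n : ℝ), (n : ℝ))) = ENNReal.ofReal ((n : ℝ) ^ 2) := by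
    rw [Set.Icc_prod_eq, Measure.volume_eq_prod, Measure.prod_prod]
    simp only [Prod.fst_zero, Prod.snd_zero, Real.volume_Icc, sub_zero]
    rw [← ENNReal.ofReal_mul hn0.le, sq]
  rw [h1]
  apply ENNReal.inv_mul_cancel
  · rw [Ne, ENNReal.ofReal_eq_zero, not_le]
    positivity
  · exact ENNReal.ofReal_ne_top

theorem d1 : S_D1 := by
  intro n t Ω _ P C Z hn hS
  have hP := hS.prob
  have hC : AEMeasurable C P := by
    have : NeZero (Measure.map C P) := by
      rw [hS.lawC]
      exact ⟨IsProbabilityMeasure.ne_zero _⟩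
    exact aemeasurable_of_map_neZero this
  have hZ : ∀ i, AEMeasurable (Z i) P := by
    intro i
    have : NeZero (Measure.map (Z i) P) := by
      rw [hS.lawZ i]
      refine ⟨fun h0 => ?_⟩
      have h1 := congrArg (fun μ : Measure _ => μ Set.univ) h0
      have : IsProbabilityMeasure (unif n) := ⟨unif_univ hn⟩
      simp only [Measure.coe_zero, Pi.zero_apply] at h1
      rw [← Set.univ_prod_univ, Measure.prod_prod, ← Set.univ_prod_univ, Measure.prod_prod,
        unif_univ hn, Measure.restrict_apply_univ, Real.volume_Icc] at h1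
      simp at h1
    exact aemeasurable_of_map_neZero this
  refine ⟨hC.mk C, fun i => (hZ i).mk (Z i), ?_, ?_⟩
  · refine { prob := hP, lawC := ?_, lawZ := ?_, indZ := ?_, indCZ := ?_, mC := ?_, mZ := ?_ }
    · rw [← hS.lawC]
      exact Measure.map_congr hC.ae_eq_mk.symm
    · intro i
      rw [← hS.lawZ i]
      exact Measure.map_congr (hZ i).ae_eq_mk.symm
    · exact hS.indZ.congr fun i => (hZ i).ae_eq_mk
    · refine hS.indCZ.congr hC.ae_eq_mk ?_
      have h2 : ∀ᵐ ω ∂P, ∀ i, Z i ω = (hZ i).mk (Z i) ω := ae_all_iff.2 fun i => (hZ i).ae_eq_mk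
      filter_upwards [h2] with ω hω
      funext i
      exact hω i
    · exact hC.measurable_mk
    · exact fun i => (hZ i).measurable_mk
  · have h2 : ∀ᵐ ω ∂P, ∀ i, Z i ω = (hZ i).mk (Z i) ω := ae_all_iff.2 fun i => (hZ i).ae_eq_mk
    filter_upwards [h2, hC.ae_eq_mk] with ω hω h3
    exact ⟨h3, hω⟩

end Pool.Agent.Q275.PN
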