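import Pool.Agent.Q295.PN.StmD

/-!
# Project PN: job FC, correlations of nearby variables
-/

set_option autoImplicit false

namespace Pool.Agent.Q275.PN

open MeasureTheory ProbabilityTheory Pool.Agent.Q295.PN

section

variable {Ω : Type} [MeasurableSpace Ω] {P : Measure Ω} [IsProbabilityMeasure P]

theorem cs {U V : Ω → ℝ} (hU : MemLp U 2 P) (hV : MemLp V 2 P) :
    |cov[U, V; P]| ≤ Real.sqrt (variance U P) * Real.sqrt (variance V P) := by
  have h1 : ∀ s : ℝ, 0 ≤ variance V P * (s * s) + (-2 * cov[U, V; P]) * s + variance U P := by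
    intro s
    have h2 := variance_sub (μ := P) hU (hV.const_smul s)
    rw [variance_smul, covariance_smul_right] at h2
    have h3 := variance_nonneg (U - s • V) P
    nlinarith
  have h2 := discrim_le_zero h1
  unfold discrim at h2
  have h3 : cov[U, V; P] ^ 2 ≤ variance U P * variance V P := by nlinarith
  rw [← Real.sqrt_mul (variance_nonneg _ _)]
  exact Real.abs_le_sqrt h3

theorem sd_le_one {D : Ω → ℝ} (hD : MemLp D 2 P) (h : ∫ ω, D ω ^ 2 ∂P ≤ 1) :
    Real.sqrt (variance D P) ≤ 1 := by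
  rw [Real.sqrt_le_left zero_le_one, one_pow]
  refine (variance_le_expectation_sq hD.aestronglyMeasurable).trans ?_
  exact h

/-- the standard deviations of nearby variables -/
theorem sd_near {X X' : Ω → ℝ} (hX : MemLp X 2 P) (hX' : MemLp X' 2 P)
    (h : ∫ ω, (X ω - X' ω) ^ 2 ∂P ≤ 1) (hs : 1 ≤ Real.sqrt (variance X' P)) :
    variance X P ≤ (Real.sqrt (variance X' P) + 1) ^ 2 ∧
      (Real.sqrt (variance X' P) - 1) ^ 2 ≤ variance X P := by
  have hD : MemLp (X - X') 2 P := hX.sub hX'
  have h1 := sd_le_one hD h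
  have h2 := variance_add hX' hD
  have e : X' + (X - X') = X := by
    funext ω
    simp
  rw [e] at h2
  have h3 := abs_le.1 (cs hX' hD)
  set σ := Real.sqrt (variance X' P) with hσ
  set d := Real.sqrt (variance (X - X') P) with hd
  have h4 : variance X' P = σ ^ 2 := (Real.sq_sqrt (variance_nonneg _ _)).symm
  have h5 : variance (X - X') P = d ^ 2 := (Real.sq_sqrt (variance_nonneg _ _)).symm
  have hd0 : 0 ≤ d := Real.sqrt_nonneg _
  rw [h4, h5] at h2
  constructor
  · nlinarith [h3.2]
  · nlinarith [h3.1]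

end

theorem fc : S_FC := by
  intro Ω _ P _ X Y X' Y' v a δ hX hY hX' hY' hXX hYY hvX hvY hc0 hc ha hδ hv
  set σ := Real.sqrt v with hσ
  have hσ2 : 2 ≤ σ := by
    rw [hσ]
    apply Real.le_sqrt_of_sq_le
    linarith
  have hσv : σ ^ 2 = v := Real.sq_sqrt (by linarith)
  have h1 := sd_near hX hX' hXX (by rw [hvX]; linarith)
  have h2 := sd_near hY hY' hYY (by rw [hvY]; linarith)
  rw [hvX] at h1
  rw [hvY] at h2
  have hD : MemLp (X - X') 2 P := hX.sub hX'
  have hE : MemLp (Y - Y') 2 P := hY.sub hY'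
  have hd1 := sd_le_one hD hXX
  have he1 := sd_le_one hE hYY
  have c1 := cs hD hY
  have c2 := cs hX' hE
  rw [hvX] at c2
  have hsY : Real.sqrt (variance Y P) ≤ σ + 1 := by
    rw [Real.sqrt_le_left (by linarith)]
    exact h2.1
  have e : cov[X, Y; P] = cov[X', Y'; P] + cov[X - X', Y; P] + cov[X', Y - Y'; P] := by
    rw [covariance_sub_left hX hX' hY, covariance_sub_right hX' hY hY']
    ring
  have hcov : |cov[X, Y; P]| ≤ a + δ * v + (2 * σ + 1) := by
    have h3 : Real.sqrt (variance (X - X') P) * Real.sqrt (variance Y P) ≤ 1 * (σ + 1) :=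
      mul_le_mul hd1 hsY (Real.sqrt_nonneg _) zero_le_one
    have h4 : σ * Real.sqrt (variance (Y - Y') P) ≤ σ * 1 :=
      mul_le_mul_of_nonneg_left he1 (by linarith)
    have h5 := abs_le.1 c1
    have h6 := abs_le.1 c2
    rw [e, abs_le]
    constructor <;> linarith [h5.1, h5.2, h6.1, h6.2]
  have hprod : v / 4 ≤ Real.sqrt (variance X P * variance Y P) := by
    apply Real.le_sqrt_of_sq_le
    have h3 : v / 4 ≤ (σ - 1) ^ 2 := by nlinarith
    have h4 : (v / 4) ^ 2 = v / 4 * (v / 4) := sq _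
    rw [h4]
    exact mul_le_mul (h3.trans h1.2) (h3.trans h2.2) (by linarith) (variance_nonneg _ _)
  have hv0 : 0 < v := by linarith
  have hs0 : 0 < Real.sqrt (variance X P * variance Y P) := lt_of_lt_of_le (by linarith) hprod
  rw [abs_div, abs_of_pos hs0, div_le_iff₀ hs0]
  have h3 : 4 * a / v + 4 * δ + 16 / σ = (4 / v) * (a + δ * v + 4 * σ) := by
    have : 16 / σ = 16 * σ / v := by
      rw [← hσv]
      have : σ ≠ 0 := by linarith
      field_simp
    rw [this]
    field_simp
    ring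
  rw [h3]
  have h4 : 0 ≤ a + δ * v + 4 * σ := by
    have : 0 ≤ δ * v := mul_nonneg hδ hv0.le
    linarith
  calc |cov[X, Y; P]| ≤ a + δ * v + 4 * σ := by linarith
    _ = (4 / v) * (a + δ * v + 4 * σ) * (v / 4) := by field_simp
    _ ≤ _ := mul_le_mul_of_nonneg_left hprod (by positivity)

end Pool.Agent.Q275.PN
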