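import Pool.Agent.Q295.PN.StmA

/-!
# Project PN: job GA, large empty intervals
-/

set_option autoImplicit false

namespace Pool.Agent.Q275.PN

open Finset Pool.Agent.Q295.PN

section

variable {ι : Type} [Fintype ι] [DecidableEq ι]

omit [DecidableEq ι] in
theorem wt_nonneg {p : ℝ} (hp : 0 < p) (hp1 : p < 1) (κ : ι → Bool) : 0 ≤ wt p κ := by
  unfold wt
  refine Finset.prod_nonneg fun i _ => ?_
  split_ifs <;> linarith

theorem Ex_mono {p : ℝ} (hp : 0 < p) (hp1 : p < 1) {f g : (ι → Bool) → ℝ} (h : ∀ κ, f κ ≤ g κ) :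
    Ex p f ≤ Ex p g := by
  unfold Ex
  exact Finset.sum_le_sum fun κ _ => mul_le_mul_of_nonneg_left (h κ) (wt_nonneg hp hp1 κ)

theorem Ex_add (p : ℝ) (f g : (ι → Bool) → ℝ) : Ex p (fun κ => f κ + g κ) = Ex p f + Ex p g := by
  unfold Ex
  rw [← Finset.sum_add_distrib]
  exact Finset.sum_congr rfl fun κ _ => by ring

theorem Ex_sum {β : Type} (p : ℝ) (s : Finset β) (f : β → (ι → Bool) → ℝ) :
    Ex p (fun κ => ∑ b ∈ s, f b κ) = ∑ b ∈ s, Ex p (f b) := by
  unfold Ex
  rw [Finset.sum_comm]
  exact Finset.sum_congr rfl fun κ _ => by rw [Finset.mul_sum]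

/-- Probability of a cylinder. -/
theorem Ex_cyl (p : ℝ) (S : Finset ι) (c : ι → Bool) :
    Ex p (fun κ => if (∀ i ∈ S, κ i = c i) then (1 : ℝ) else 0) =
      ∏ i ∈ S, (if c i = true then p else 1 - p) := by
  classical
  unfold Ex wt
  have h1 : ∀ κ : ι → Bool, (∏ i, (if κ i = true then p else 1 - p)) *
      (if (∀ i ∈ S, κ i = c i) then (1 : ℝ) else 0) =
      ∏ i, ((if κ i = true then p else 1 - p) * (if (i ∈ S → κ i = c i) then (1 : ℝ) else 0)) := by
    intro κ
    rw [Finset.prod_mul_distrib]
    congr 1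
    by_cases h : ∀ i ∈ S, κ i = c i
    · rw [if_pos h]
      symm
      refine Finset.prod_eq_one fun i _ => ?_
      rw [if_pos (h i)]
    · rw [if_neg h]
      push Not at h
      obtain ⟨i, hi, hne⟩ := h
      symm
      refine Finset.prod_eq_zero (Finset.mem_univ i) ?_
      rw [if_neg]
      intro h2
      exact hne (h2 hi)
  rw [Finset.sum_congr rfl fun κ _ => h1 κ]
  have h2 := Finset.prod_univ_sum (fun _ : ι => (Finset.univ : Finset Bool))
    (fun i b => (if b = true then p else 1 - p) * (if (i ∈ S → b = c i) then (1 : ℝ) else 0))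
  rw [Fintype.piFinset_univ] at h2
  rw [← h2]
  have h3 : ∀ i : ι, (∑ b : Bool, (if b = true then p else 1 - p) *
      (if (i ∈ S → b = c i) then (1 : ℝ) else 0)) =
      if i ∈ S then (if c i = true then p else 1 - p) else 1 := by
    intro i
    rw [Fintype.sum_bool]
    by_cases hi : i ∈ S
    · cases hc : c i <;> simp [hi]
    · simp [hi]
  rw [Finset.prod_congr rfl fun i _ => h3 i, Finset.prod_ite_mem]
  simp

end

theorem ga : S_GA := by
  intro ι _ _ _ p T x hp hp1
  classical
  have hT : ∀ z z' : ι, T ≤ p * (bt z z' : ℝ) → (1 - p) ^ (bt z z') ≤ Real.exp (-T) := by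
    intro z z' h
    have h1 : (1 - p) ≤ Real.exp (-p) := by
      have := Real.add_one_le_exp (-p)
      linarith
    calc (1 - p) ^ (bt z z') ≤ (Real.exp (-p)) ^ (bt z z') :=
          pow_le_pow_left₀ (by linarith) h1 _
      _ = Real.exp (-(p * (bt z z' : ℝ))) := by
          rw [← Real.exp_nat_mul]
          congr 1
          ring
      _ ≤ Real.exp (-T) := Real.exp_le_exp.2 (by linarith)
  -- the open intervals
  let I : ι → ι → Finset ι := fun z z' => Finset.univ.filter (fun w => z < w ∧ w < z')
  have hI : ∀ z z', (I z z').card = bt z z' := by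
    intro z z'
    unfold bt
    rfl
  -- probability of the first event
  have hA : ∀ z', T ≤ p * (bt x z' : ℝ) →
      Ex p (fun κ => if (∀ i ∈ insert z' (I x z'), κ i = decide (i = z')) then (1 : ℝ) else 0) ≤
        p * Real.exp (-T) := by
    intro z' h
    rw [Ex_cyl]
    have hz : z' ∉ I x z' := by simp [I]
    rw [Finset.prod_insert hz]
    have h1 : ∏ i ∈ I x z', (if decide (i = z') = true then p else 1 - p) = (1 - p) ^ (bt x z') := by
      rw [← hI, ← Finset.prod_const]
      refine Finset.prod_congr rfl fun i hi => ?_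
      have : i ≠ z' := fun h => hz (h ▸ hi)
      simp [this]
    rw [h1]
    simp only [decide_true, if_true]
    exact mul_le_mul_of_nonneg_left (hT x z' h) hp.le
  have hB : ∀ z z', z < z' → T ≤ p * (bt z z' : ℝ) →
      Ex p (fun κ => if (∀ i ∈ insert z (insert z' (I z z')), κ i = decide (i = z' ∨ i = z))
        then (1 : ℝ) else 0) ≤ p ^ 2 * Real.exp (-T) := by
    intro z z' hlt h
    rw [Ex_cyl]
    have hz' : z' ∉ I z z' := by simp [I]
    have hz : z ∉ insert z' (I z z') := by
      simp [I, hlt.ne]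
    rw [Finset.prod_insert hz, Finset.prod_insert hz']
    have h1 : ∏ i ∈ I z z', (if decide (i = z' ∨ i = z) = true then p else 1 - p) =
        (1 - p) ^ (bt z z') := by
      rw [← hI, ← Finset.prod_const]
      refine Finset.prod_congr rfl fun i hi => ?_
      have h1 : i ≠ z' := fun h => hz' (h ▸ hi)
      have h2 : i ≠ z := fun h => hz (Finset.mem_insert_of_mem (h ▸ hi))
      simp [h1, h2]
    rw [h1]
    simp only [or_true, true_or, decide_true, if_true]
    have := mul_le_mul_of_nonneg_left (hT z z' h) (by positivity : (0 : ℝ) ≤ p * p)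
    calc p * (p * (1 - p) ^ bt z z') = p * p * (1 - p) ^ bt z z' := by ring
      _ ≤ p * p * Real.exp (-T) := this
      _ = p ^ 2 * Real.exp (-T) := by ring
  -- pointwise union bound
  let FA : ι → (ι → Bool) → ℝ := fun z' κ => if T ≤ p * (bt x z' : ℝ) then
    (if (∀ i ∈ insert z' (I x z'), κ i = decide (i = z')) then (1 : ℝ) else 0) else 0
  let FB : ι × ι → (ι → Bool) → ℝ := fun q κ => if (q.1 < q.2 ∧ T ≤ p * (bt q.1 q.2 : ℝ)) then
    (if (∀ i ∈ insert q.1 (insert q.2 (I q.1 q.2)), κ i = decide (i = q.2 ∨ i = q.1))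
        then (1 : ℝ) else 0) else 0
  have hFA0 : ∀ z' κ, 0 ≤ FA z' κ := by
    intro z' κ
    simp only [FA]
    split_ifs <;> norm_num
  have hFB0 : ∀ q κ, 0 ≤ FB q κ := by
    intro q κ
    simp only [FB]
    split_ifs <;> norm_num
  have hpt : ∀ κ, (if Gap p T x κ then (1 : ℝ) else 0) ≤ ∑ z', FA z' κ + ∑ q, FB q κ := by
    intro κ
    have hsA : 0 ≤ ∑ z', FA z' κ := Finset.sum_nonneg fun z' _ => hFA0 z' κ
    have hsB : 0 ≤ ∑ q, FB q κ := Finset.sum_nonneg fun q _ => hFB0 q κ
    split_ifs with hG
    · obtain ⟨z, z', hz, hz', hlt, hTb, hcl⟩ := hG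
      rcases hz with rfl | hz
      · have h1 : FA z' κ = 1 := by
          simp only [FA]
          rw [if_pos hTb, if_pos]
          intro i hi
          rcases Finset.mem_insert.1 hi with rfl | hi
          · simp [hz']
          · simp only [I, Finset.mem_filter, Finset.mem_univ, true_and] at hi
            rw [hcl i hi.1 hi.2]
            have : i ≠ z' := hi.2.ne
            simp [this]
        have h2 := Finset.single_le_sum (fun z' _ => hFA0 z' κ) (Finset.mem_univ z')
        linarith
      · have h1 : FB (z, z') κ = 1 := by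
          simp only [FB]
          rw [if_pos ⟨hlt, hTb⟩, if_pos]
          intro i hi
          rcases Finset.mem_insert.1 hi with rfl | hi
          · simp [hz]
          · rcases Finset.mem_insert.1 hi with rfl | hi
            · simp [hz']
            · simp only [I, Finset.mem_filter, Finset.mem_univ, true_and] at hi
              rw [hcl i hi.1 hi.2]
              have h3 : i ≠ z' := hi.2.ne
              have h4 : i ≠ z := hi.1.ne'
              simp [h3, h4]
        have h2 := Finset.single_le_sum (fun q _ => hFB0 q κ) (Finset.mem_univ (z, z'))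
        linarith
    · linarith
  have hmain : Pr p (Gap p T x) ≤ Ex p (fun κ => ∑ z', FA z' κ + ∑ q, FB q κ) := by
    unfold Pr
    refine Ex_mono hp hp1 fun κ => ?_
    exact hpt κ
  refine hmain.trans ?_
  rw [Ex_add, Ex_sum, Ex_sum]
  have h1 : ∑ z', Ex p (FA z') ≤ ∑ _z' : ι, p * Real.exp (-T) := by
    refine Finset.sum_le_sum fun z' _ => ?_
    by_cases h : T ≤ p * (bt x z' : ℝ)
    · have := hA z' h
      simp only [FA, if_pos h]
      exact this
    · simp only [FA, if_neg h]
      unfold Ex
      simp only [mul_zero, Finset.sum_const_zero]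
      positivity
  have h2 : ∑ q, Ex p (FB q) ≤ ∑ _q : ι × ι, p ^ 2 * Real.exp (-T) := by
    refine Finset.sum_le_sum fun q _ => ?_
    by_cases h : (q.1 < q.2 ∧ T ≤ p * (bt q.1 q.2 : ℝ))
    · have := hB q.1 q.2 h.1 h.2
      simp only [FB, if_pos h]
      exact this
    · simp only [FB, if_neg h]
      unfold Ex
      simp only [mul_zero, Finset.sum_const_zero]
      positivity
  rw [Finset.sum_const, Finset.card_univ, nsmul_eq_mul] at h1 h2
  rw [Fintype.card_prod] at h2
  push_cast at h2
  have h3 : p * (Fintype.card ι : ℝ) * (1 + p * Fintype.card ι) * Real.exp (-T) =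
      (Fintype.card ι : ℝ) * (p * Real.exp (-T)) +
        (Fintype.card ι : ℝ) * (Fintype.card ι : ℝ) * (p ^ 2 * Real.exp (-T)) := by ring
  rw [h3]
  linarith

end Pool.Agent.Q275.PN
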